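import Mathlib

set_option autoImplicit false

/-!
# Every number in `[0,1]` is a fixed-point proportion

For every `d ≥ 2` and every `α ∈ [0,1]` there is a group of automorphisms of the `d`-regular rooted
tree whose fixed-point proportion is `α`.  The vertices of the tree are the words over `Fin d`.
-/

namespace Pool.Agent.Results.MP_80cb54_al.AllValues

open Filter

/-- automorphisms of the rooted tree of words over `X` -/
def IsTreeAut {X : Type} (f : Equiv.Perm (List X)) : Prop :=
  (∀ w, (f w).length = w.length) ∧ ∀ u v : List X, (f (u ++ v)).take u.length = f u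

/-- the vertices of level `n` -/
abbrev Level (X : Type) (n : ℕ) : Type := {w : List X // w.length = n}

/-- the group `G_n` induced on level `n` -/
def induced {X : Type} (G : Subgroup (Equiv.Perm (List X))) (n : ℕ) :
    Set (Equiv.Perm (Level X n)) := {σ | ∃ g ∈ G, ∀ w, (σ w : List X) = g (w : List X)}

/-- the proportion of the elements of `G_n` which fix a vertex of level `n` -/
noncomputable def prop {X : Type} (G : Subgroup (Equiv.Perm (List X))) (n : ℕ) : ℝ :=
  (Nat.card {σ : Equiv.Perm (Level X n) // σ ∈ induced G n ∧ ∃ v, σ v = v} : ℝ) /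
    (Nat.card {σ : Equiv.Perm (Level X n) // σ ∈ induced G n} : ℝ)

section

variable {k : ℕ}

/-- the alphabet -/
abbrev A (k : ℕ) : Type := Fin (k + 2)

/-- rotate the first letter -/
def rot (c : A k) : List (A k) → List (A k)
  | [] => []
  | y :: w => (y + c) :: w

/-- the tail of a sequence -/
def tl {α : Type} (f : ℕ → α) : ℕ → α := fun n => f (n + 1)

/-- the action of the sequence `r` -/
def act : (ℕ → Bool) → (ℕ → A k) → List (A k) → List (A k)
  | _, _, [] => []
  | b, r, x :: w =>
    if b 0 = true then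
      if x = 0 then 0 :: act (tl b) (tl r) w else x :: rot (r 0) w
    else (x + r 0) :: act (tl b) (tl r) w

theorem rot_rot (c e : A k) (w : List (A k)) : rot c (rot e w) = rot (c + e) w := by
  cases w with
  | nil => rfl
  | cons y w => simp [rot, add_assoc, add_comm e c]

theorem rot_zero (w : List (A k)) : rot 0 w = w := by
  cases w with
  | nil => rfl
  | cons y w => simp [rot]

theorem rot_length (c : A k) (w : List (A k)) : (rot c w).length = w.length := by
  cases w <;> simp [rot]

theorem tl_add (r s : ℕ → A k) : tl (r + s) = tl r + tl s := rfl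

theorem tl_zero : tl (0 : ℕ → A k) = 0 := rfl

theorem act_act (w : List (A k)) : ∀ (b : ℕ → Bool) (r s : ℕ → A k),
    act b r (act b s w) = act b (r + s) w := by
  induction w with
  | nil => intro b r s; rfl
  | cons x w ih =>
    intro b r s
    by_cases hb : b 0 = true
    · by_cases hx : x = 0
      · simp [act, hb, hx, ih, tl_add]
      · simp [act, hb, hx, rot_rot]
    · simp [act, hb, ih, tl_add, add_assoc, add_comm (s 0)]

theorem act_zero (w : List (A k)) : ∀ (b : ℕ → Bool), act b 0 w = w := by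
  induction w with
  | nil => intro b; rfl
  | cons x w ih =>
    intro b
    by_cases hb : b 0 = true
    · by_cases hx : x = 0
      · simp [act, hb, hx, ih, tl_zero]
      · simp [act, hb, hx, rot_zero]
    · simp [act, hb, ih, tl_zero]

theorem act_length (w : List (A k)) : ∀ (b : ℕ → Bool) (r : ℕ → A k),
    (act b r w).length = w.length := by
  induction w with
  | nil => intro b r; rfl
  | cons x w ih =>
    intro b r
    by_cases hb : b 0 = true
    · by_cases hx : x = 0
      · simp [act, hb, hx, ih]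
      · simp [act, hb, hx, rot_length]
    · simp [act, hb, ih]

theorem rot_take (c : A k) (u v : List (A k)) : (rot c (u ++ v)).take u.length = rot c u := by
  cases u with
  | nil => simp [rot]
  | cons y u => simp [rot]

theorem act_take (u : List (A k)) : ∀ (b : ℕ → Bool) (r : ℕ → A k) (v : List (A k)),
    (act b r (u ++ v)).take u.length = act b r u := by
  induction u with
  | nil => intro b r v; simp [act]
  | cons x u ih =>
    intro b r v
    by_cases hb : b 0 = true
    · by_cases hx : x = 0
      · simp [act, hb, hx, ih]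
      · simp [act, hb, hx, rot_take]
    · simp [act, hb, ih]

/-- the homomorphism `r ↦ act b r` -/
def phi (b : ℕ → Bool) : Multiplicative (ℕ → A k) →* Equiv.Perm (List (A k)) where
  toFun r := ⟨act b r.toAdd, act b (-r.toAdd), fun w => by rw [act_act]; simp [act_zero],
    fun w => by rw [act_act]; simp [act_zero]⟩
  map_one' := by ext1 w; exact act_zero w b
  map_mul' r s := by ext1 w; exact (act_act w b _ _).symm

/-- the group -/
def Gr (b : ℕ → Bool) : Subgroup (Equiv.Perm (List (A k))) := (phi b).range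

theorem Gr_aut (b : ℕ → Bool) (g : Equiv.Perm (List (A k))) (hg : g ∈ Gr b) : IsTreeAut g := by
  obtain ⟨r, rfl⟩ := hg
  exact ⟨fun w => act_length w b _, fun u v => act_take u b _ v⟩

/-- extension of a finite sequence by zero -/
def ext {n : ℕ} (r : Fin n → A k) : ℕ → A k := fun i => if h : i < n then r ⟨i, h⟩ else 0

theorem ext_add {n : ℕ} (r s : Fin n → A k) : ext (r + s) = ext r + ext s := by
  funext i
  by_cases h : i < n <;> simp [ext, h]

theorem act_congr (w : List (A k)) : ∀ (b : ℕ → Bool) (r s : ℕ → A k),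
    (∀ i < w.length, r i = s i) → act b r w = act b s w := by
  induction w with
  | nil => intro b r s _; rfl
  | cons x w ih =>
    intro b r s h
    have h0 : r 0 = s 0 := h 0 (by simp)
    have h1 := ih (tl b) (tl r) (tl s) (fun i hi => h (i + 1) (by simpa using hi))
    by_cases hb : b 0 = true
    · by_cases hx : x = 0
      · simp [act, hb, hx, h1]
      · simp [act, hb, hx, h0]
    · simp [act, hb, h0, h1]

/-- the action on level `n` -/
def psi (b : ℕ → Bool) (n : ℕ) : Multiplicative (Fin n → A k) →* Equiv.Perm (Level (A k) n) where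
  toFun r := ⟨fun w => ⟨act b (ext r.toAdd) w.1, by rw [act_length]; exact w.2⟩,
    fun w => ⟨act b (-ext r.toAdd) w.1, by rw [act_length]; exact w.2⟩,
    fun w => by apply Subtype.ext; simp [act_act, act_zero],
    fun w => by apply Subtype.ext; simp [act_act, act_zero]⟩
  map_one' := by
    ext1 w
    apply Subtype.ext
    have : ext (0 : Fin n → A k) = 0 := by funext i; simp [ext]
    change act b (ext (0 : Fin n → A k)) w.1 = w.1
    rw [this, act_zero]
  map_mul' r s := by
    ext1 w
    apply Subtype.ext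
    change act b (ext (r.toAdd + s.toAdd)) w.1 = act b (ext r.toAdd) (act b (ext s.toAdd) w.1)
    rw [act_act, ext_add]

theorem induced_Gr (b : ℕ → Bool) (n : ℕ) :
    induced (Gr (k := k) b) n = Set.range (psi b n) := by
  ext σ
  constructor
  · rintro ⟨_, ⟨r, rfl⟩, h⟩
    refine ⟨Multiplicative.ofAdd (fun i => r.toAdd i), ?_⟩
    ext1 w
    apply Subtype.ext
    rw [h w]
    change act b (ext fun i : Fin n => r.toAdd i) w.1 = act b r.toAdd w.1
    apply act_congr
    intro i hi
    rw [w.2] at hi
    simp [ext, hi]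
  · rintro ⟨r, rfl⟩
    exact ⟨phi b (Multiplicative.ofAdd (ext r.toAdd)), ⟨_, rfl⟩, fun w => rfl⟩

/-- a homomorphism does not change proportions -/
theorem ratio {P Q : Type} [Group P] [Finite P] [Group Q] (f : P →* Q) (p : Q → Prop) :
    (Nat.card {q : Q // q ∈ Set.range f ∧ p q} : ℝ) / (Nat.card {q : Q // q ∈ Set.range f} : ℝ) =
      (Nat.card {x : P // p (f x)} : ℝ) / (Nat.card P : ℝ) := by
  classical
  have := Fintype.ofFinite P
  have hfib : ∀ (p : Q → Prop), Nat.card {x : P // p (f x)} =
      Nat.card {q : Q // q ∈ Set.range f ∧ p q} * Nat.card f.ker := by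
    intro p
    rw [← Nat.card_prod]
    choose g hg using fun q : {q : Q // q ∈ Set.range f ∧ p q} => q.2.1
    refine Nat.card_congr ?_
    refine ⟨fun x => (⟨f x.1, ⟨x.1, rfl⟩, x.2⟩, ⟨x.1 * (g ⟨f x.1, ⟨x.1, rfl⟩, x.2⟩)⁻¹, ?_⟩),
      fun y => ⟨y.2.1 * g y.1, ?_⟩, ?_, ?_⟩
    · rw [MonoidHom.mem_ker, map_mul, map_inv, hg]; simp
    · have h1 : f y.2.1 = 1 := y.2.2
      rw [map_mul, h1, one_mul, hg]
      exact y.1.2.2
    · intro x
      apply Subtype.ext
      simp
    · rintro ⟨⟨q, hq⟩, ⟨z, hz⟩⟩
      have h1 : f z = 1 := hz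
      have h2 : f (z * g ⟨q, hq⟩) = q := by rw [map_mul, h1, one_mul, hg]
      simp [h2]
  have h1 := hfib p
  have h2 := hfib (fun _ => True)
  have h3 : Nat.card {x : P // (fun _ : Q => True) (f x)} = Nat.card P :=
    Nat.card_congr (Equiv.subtypeUnivEquiv fun _ => trivial)
  have h4 : Nat.card {q : Q // q ∈ Set.range f ∧ (fun _ : Q => True) q} =
      Nat.card {q : Q // q ∈ Set.range f} :=
    Nat.card_congr (Equiv.subtypeEquivRight fun q => by simp)
  rw [h3, h4] at h2
  have hk : (Nat.card f.ker : ℝ) ≠ 0 := by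
    have : 0 < Nat.card f.ker := Nat.card_pos
    positivity
  rw [h1, h2]
  push_cast
  rw [mul_div_mul_right _ _ hk]

/-- does the sequence `r` fix a vertex of level `n` -/
def Good (b : ℕ → Bool) (n : ℕ) (r : ℕ → A k) : Prop :=
  ∃ w : List (A k), w.length = n ∧ act b r w = w

theorem prop_Gr (b : ℕ → Bool) (n : ℕ) : prop (Gr (k := k) b) n =
    (Nat.card {r : Fin n → A k // Good b n (ext r)} : ℝ) / (k + 2 : ℝ) ^ n := by
  unfold prop
  rw [induced_Gr, ratio (psi b n) (fun σ => ∃ v, σ v = v)]
  congr 1
  · norm_cast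
    refine Nat.card_congr (Equiv.subtypeEquiv Multiplicative.toAdd ?_)
    intro r
    constructor
    · rintro ⟨v, hv⟩
      exact ⟨v.1, v.2, congrArg Subtype.val hv⟩
    · rintro ⟨w, hw, h⟩
      exact ⟨⟨w, hw⟩, Subtype.ext h⟩
  · rw [Nat.card_congr Multiplicative.toAdd]
    simp

theorem good_zero (b : ℕ → Bool) (r : ℕ → A k) : Good b 0 r := ⟨[], rfl, rfl⟩

theorem good_succ_false {b : ℕ → Bool} (hb : b 0 = false) (n : ℕ) (r : ℕ → A k) :
    Good b (n + 1) r ↔ r 0 = 0 ∧ Good (tl b) n (tl r) := by
  constructor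
  · rintro ⟨w, hw, h⟩
    rcases w with _ | ⟨x, w⟩
    · simp at hw
    · rw [act, if_neg (by simp [hb])] at h
      simp only [List.cons.injEq] at h
      exact ⟨by simpa using h.1, w, by simpa using hw, h.2⟩
  · rintro ⟨h0, w, hw, h⟩
    refine ⟨0 :: w, by simp [hw], ?_⟩
    rw [act, if_neg (by simp [hb]), h0, h]
    simp

theorem good_succ_true {b : ℕ → Bool} (hb : b 0 = true) (n : ℕ) (r : ℕ → A k) :
    Good b (n + 1) r ↔ (r 0 = 0 ∨ Good (tl b) n (tl r)) := by
  constructor
  · rintro ⟨w, hw, h⟩
    rcases w with _ | ⟨x, w⟩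
    · simp at hw
    · rw [act, if_pos hb] at h
      have hw' : w.length = n := by simpa using hw
      by_cases hx : x = 0
      · rw [if_pos hx] at h
        simp only [List.cons.injEq] at h
        exact Or.inr ⟨w, hw', h.2⟩
      · rw [if_neg hx] at h
        simp only [List.cons.injEq, true_and] at h
        rcases w with _ | ⟨y, w⟩
        · have : n = 0 := by simpa using hw'.symm
          subst this
          exact Or.inr (good_zero _ _)
        · simp only [rot, List.cons.injEq, add_eq_left, and_true] at h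
          exact Or.inl h
  · rintro (h0 | ⟨w, hw, h⟩)
    · refine ⟨1 :: List.replicate n 0, by simp, ?_⟩
      rw [act, if_pos hb, if_neg (by simp), h0, rot_zero]
    · refine ⟨0 :: w, by simp [hw], ?_⟩
      rw [act, if_pos hb, if_pos rfl, h]

theorem card_split {S : Type} [Finite S] (P : S → Prop) :
    (Nat.card {z : A k × S // z.1 = 0 ∨ P z.2} : ℝ) =
      Nat.card S + (k + 1) * (Nat.card {s : S // P s} : ℝ) := by
  classical
  have h1 : Nat.card {z : A k × S // z.1 = 0 ∨ P z.2} +
      Nat.card {z : A k × S // ¬ (z.1 = 0 ∨ P z.2)} = (k + 2) * Nat.card S := by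
    rw [← Nat.card_sum, Nat.card_congr (Equiv.sumCompl _), Nat.card_prod]
    simp
  have h2 : Nat.card {z : A k × S // ¬ (z.1 = 0 ∨ P z.2)} =
      (k + 1) * Nat.card {s : S // ¬ P s} := by
    have e : {z : A k × S // ¬ (z.1 = 0 ∨ P z.2)} ≃ {x : A k // x ≠ 0} × {s : S // ¬ P s} :=
      (Equiv.subtypeEquivRight fun z => by simp [not_or]).trans
        (Equiv.subtypeProdEquivProd (p := fun x : A k => x ≠ 0) (q := fun s => ¬ P s))
    rw [Nat.card_congr e, Nat.card_prod]
    congr 1
    rw [Nat.card_eq_fintype_card, Fintype.card_subtype_compl]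
    simp
  have h3 : Nat.card {s : S // P s} + Nat.card {s : S // ¬ P s} = Nat.card S := by
    rw [← Nat.card_sum, Nat.card_congr (Equiv.sumCompl _)]
  rw [h2] at h1
  have h1' : (Nat.card {z : A k × S // z.1 = 0 ∨ P z.2} : ℝ) +
      (k + 1) * (Nat.card {s : S // ¬ P s} : ℝ) = (k + 2) * (Nat.card S : ℝ) := by
    exact_mod_cast h1
  have h3' : (Nat.card {s : S // P s} : ℝ) + (Nat.card {s : S // ¬ P s} : ℝ) =
      (Nat.card S : ℝ) := by exact_mod_cast h3
  linear_combination h1' - (k + 1 : ℝ) * h3'

theorem card_split' {S : Type} [Finite S] (P : S → Prop) :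
    Nat.card {z : A k × S // z.1 = 0 ∧ P z.2} = Nat.card {s : S // P s} := by
  have e : {z : A k × S // z.1 = 0 ∧ P z.2} ≃ {x : A k // x = 0} × {s : S // P s} :=
    Equiv.subtypeProdEquivProd (p := fun x : A k => x = 0) (q := fun s => P s)
  rw [Nat.card_congr e, Nat.card_prod]
  simp

/-- splitting off the first term -/
def spl (n : ℕ) : (Fin (n + 1) → A k) ≃ A k × (Fin n → A k) := (Fin.consEquiv fun _ => A k).symm

theorem ext_zero {n : ℕ} (r : Fin (n + 1) → A k) : ext r 0 = (spl n r).1 := by
  simp [ext, spl]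

theorem tl_ext {n : ℕ} (r : Fin (n + 1) → A k) : tl (ext r) = ext (spl n r).2 := by
  funext i
  by_cases h : i < n
  · simp [tl, ext, spl, h, Fin.tail]
  · simp [tl, ext, h]

/-- the proportion -/
noncomputable def pr (k : ℕ) (b : ℕ → Bool) (n : ℕ) : ℝ :=
  (Nat.card {r : Fin n → A k // Good b n (ext r)} : ℝ) / (k + 2 : ℝ) ^ n

theorem pr_zero (b : ℕ → Bool) : pr k b 0 = 1 := by
  unfold pr
  have : Nat.card {r : Fin 0 → A k // Good b 0 (ext r)} = 1 := by
    rw [Nat.card_congr (Equiv.subtypeUnivEquiv fun r => good_zero b _)]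
    simp
  rw [this]; simp

theorem pr_succ_false {b : ℕ → Bool} (hb : b 0 = false) (n : ℕ) :
    pr k b (n + 1) = pr k (tl b) n / (k + 2) := by
  unfold pr
  have : Nat.card {r : Fin (n + 1) → A k // Good b (n + 1) (ext r)} =
      Nat.card {r : Fin n → A k // Good (tl b) n (ext r)} := by
    rw [← card_split' (k := k) (fun r : Fin n → A k => Good (tl b) n (ext r))]
    refine Nat.card_congr (Equiv.subtypeEquiv (spl n) ?_)
    intro r
    rw [good_succ_false hb, ext_zero, tl_ext]
  rw [this, pow_succ, div_div]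

theorem pr_succ_true {b : ℕ → Bool} (hb : b 0 = true) (n : ℕ) :
    pr k b (n + 1) = 1 / (k + 2) + (k + 1) / (k + 2) * pr k (tl b) n := by
  unfold pr
  have : (Nat.card {r : Fin (n + 1) → A k // Good b (n + 1) (ext r)} : ℝ) =
      (k + 2 : ℝ) ^ n + (k + 1) * Nat.card {r : Fin n → A k // Good (tl b) n (ext r)} := by
    have h1 := card_split (k := k) (fun r : Fin n → A k => Good (tl b) n (ext r))
    have h2 : (Nat.card (Fin n → A k) : ℝ) = (k + 2 : ℝ) ^ n := by simp
    rw [h2] at h1
    rw [← h1]
    norm_cast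
    refine Nat.card_congr (Equiv.subtypeEquiv (spl n) ?_)
    intro r
    rw [good_succ_true hb, ext_zero, tl_ext]
  rw [this, pow_succ]
  have hk : (k + 2 : ℝ) ≠ 0 := by positivity
  field_simp

/-- one step of the expansion of `α` -/
noncomputable def step (k : ℕ) (x : ℝ) : ℝ :=
  if 1 / (k + 2 : ℝ) < x then ((k + 2) * x - 1) / (k + 1) else (k + 2) * x

/-- the digits of `α` -/
noncomputable def bits (k : ℕ) (x : ℝ) : ℕ → Bool := fun n =>
  decide (1 / (k + 2 : ℝ) < (step k)^[n] x)

theorem tl_bits (x : ℝ) : tl (bits k x) = bits k (step k x) := rfl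

theorem step_mem {x : ℝ} (h0 : 0 ≤ x) (h1 : x ≤ 1) : 0 ≤ step k x ∧ step k x ≤ 1 := by
  have hk : (0 : ℝ) < k + 2 := by positivity
  have hk1 : (0 : ℝ) < k + 1 := by positivity
  unfold step
  split_ifs with h
  · rw [div_lt_iff₀ hk] at h
    constructor
    · apply div_nonneg _ hk1.le
      linarith
    · rw [div_le_one hk1]
      nlinarith
  · rw [not_lt, le_div_iff₀ hk] at h
    constructor
    · positivity
    · linarith

theorem pr_close (n : ℕ) : ∀ x : ℝ, 0 ≤ x → x ≤ 1 →
    |pr k (bits k x) n - x| ≤ ((k + 1) / (k + 2 : ℝ)) ^ n := by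
  have hk : (0 : ℝ) < k + 2 := by positivity
  have hk1 : (0 : ℝ) < k + 1 := by positivity
  induction n with
  | zero =>
    intro x h0 h1
    rw [pr_zero, pow_zero, abs_le]
    constructor <;> linarith
  | succ n ih =>
    intro x h0 h1
    obtain ⟨g0, g1⟩ := step_mem (k := k) h0 h1
    have ih' := ih _ g0 g1
    by_cases h : 1 / (k + 2 : ℝ) < x
    · have hb : bits k x 0 = true := by simpa [bits] using h
      rw [pr_succ_true hb, tl_bits]
      have hs : step k x = ((k + 2) * x - 1) / (k + 1) := if_pos h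
      have : 1 / (k + 2 : ℝ) + (k + 1) / (k + 2) * pr k (bits k (step k x)) n - x =
          (k + 1) / (k + 2) * (pr k (bits k (step k x)) n - step k x) := by
        rw [hs]; field_simp; ring
      rw [this, abs_mul, abs_of_pos (div_pos hk1 hk), pow_succ, mul_comm]
      exact mul_le_mul_of_nonneg_right ih' (div_pos hk1 hk).le
    · have hb : bits k x 0 = false := by simpa [bits] using h
      rw [pr_succ_false hb, tl_bits]
      have hs : step k x = (k + 2) * x := if_neg h
      have : pr k (bits k (step k x)) n / (k + 2 : ℝ) - x =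
          1 / (k + 2) * (pr k (bits k (step k x)) n - step k x) := by
        rw [hs]; field_simp
      rw [this, abs_mul, abs_of_pos (div_pos one_pos hk), pow_succ, mul_comm]
      have h2 : 1 / (k + 2 : ℝ) ≤ (k + 1) / (k + 2) := by
        apply div_le_div_of_nonneg_right _ hk.le
        linarith [(Nat.cast_nonneg k : (0 : ℝ) ≤ k)]
      exact mul_le_mul ih' h2 (div_pos one_pos hk).le (by positivity)

end

/-- **Q1: yes.** For every `d ≥ 2` and every `α ∈ [0,1]` there is a group `G` of automorphisms of the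
`d`-regular rooted tree with `FPP(G) = α`. -/
theorem result (d : ℕ) (hd : 2 ≤ d) (α : ℝ) (h0 : 0 ≤ α) (h1 : α ≤ 1) :
    ∃ G : Subgroup (Equiv.Perm (List (Fin d))), (∀ g ∈ G, IsTreeAut g) ∧
      Tendsto (prop G) atTop (nhds α) := by
  obtain ⟨k, rfl⟩ : ∃ k, d = k + 2 := ⟨d - 2, by omega⟩
  refine ⟨Gr (bits k α), Gr_aut _, ?_⟩
  rw [tendsto_iff_dist_tendsto_zero]
  have hk : (0 : ℝ) < k + 2 := by positivity
  have hk1 : (0 : ℝ) < k + 1 := by positivity
  refine squeeze_zero (fun n => dist_nonneg) (fun n => ?_)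
    (tendsto_pow_atTop_nhds_zero_of_lt_one (div_pos hk1 hk).le ?_ :
      Tendsto (fun n => ((k + 1) / (k + 2 : ℝ)) ^ n) atTop (nhds 0))
  · rw [Real.dist_eq, prop_Gr]
    exact pr_close n α h0 h1
  · rw [div_lt_one hk]; linarith

end Pool.Agent.Results.MP_80cb54_al.AllValues
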